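import Pool.Agent.H5.FR.Stmts

/-!
# Project FRK, module ROO: polynomially many random structures serve all colourings
-/

set_option autoImplicit false

namespace Pool.Agent.H5.FR

open Finset

namespace ROO

theorem chi_pm {n : ℕ} (Y : Finset (Fin (2 * n))) (v : Fin (2 * n)) :
    chi Y v = 1 ∨ chi Y v = -1 := by
  unfold chi
  split_ifs
  · exact Or.inl rfl
  · exact Or.inr rfl

theorem cs_chi {n : ℕ} (Y : Finset (Fin (2 * n))) (hY : Y.card = n) :
    cs (chi Y) (univ : Finset (Fin (2 * n))) = 0 := by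
  unfold cs chi
  rw [Finset.sum_ite]
  simp only [Finset.sum_const, nsmul_eq_mul, mul_one]
  have h1 : (univ.filter (fun v => v ∈ Y) : Finset (Fin (2 * n))) = Y := by
    ext v
    simp
  have h2 : (univ.filter (fun v => v ∉ Y) : Finset (Fin (2 * n))) = Yᶜ := by
    ext v
    simp
  rw [h1, h2, Finset.card_compl, Fintype.card_fin, hY]
  have : 2 * n - n = n := by omega
  rw [this]
  ring

end ROO

theorem roo_thm (hREC : RECStmt) : ROOStmt := by
  classical
  intro n hn lam β r hP u₀ hu h hunit
  have hβ : 1 ≤ β := by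
    have := hP.big
    omega
  have hb : NeZero (β ^ 2) := ⟨by positivity⟩
  by_contra hcon
  push Not at hcon
  set T := Om (Fin (2 * n)) (β ^ 2) r h with hT
  let bad : Finset (Fin (2 * n)) → Finset T := fun Y =>
    univ.filter (fun ω => ¬ Good (chi Y) lam β u₀ h ((univ : Finset (Fin (2 * n))), ω))
  have hcov : (univ : Finset (Fin (2 * n) → T)) ⊆
      (Finset.powersetCard n (univ : Finset (Fin (2 * n)))).biUnion
        (fun Y => Fintype.piFinset (fun _ : Fin (2 * n) => bad Y)) := by
    intro ω _
    obtain ⟨Y, hY, hbad⟩ := hcon ω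
    rw [Finset.mem_biUnion]
    refine ⟨Y, Finset.mem_powersetCard.2 ⟨Finset.subset_univ _, hY⟩, ?_⟩
    rw [Fintype.mem_piFinset]
    intro j
    exact Finset.mem_filter.2 ⟨Finset.mem_univ _, hbad j⟩
  have hpos : 0 < Fintype.card T := Fintype.card_pos
  have hposR : (0 : ℝ) < Fintype.card T := by exact_mod_cast hpos
  have hbadle : ∀ Y ∈ Finset.powersetCard n (univ : Finset (Fin (2 * n))),
      ((bad Y).card : ℝ) ≤ 1 / 4 * Fintype.card T := by
    intro Y hY
    have hYc := (Finset.mem_powersetCard.1 hY).2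
    have hR : Rng (chi Y) lam (u₀ * (β : ℝ) ^ h) (univ : Finset (Fin (2 * n))) := by
      have hw : 0 ≤ (lam : ℝ) * (u₀ * (β : ℝ) ^ h) := by
        have : 0 ≤ u₀ := le_trans (by positivity) hu
        positivity
      constructor
      · rw [hunit, Finset.card_univ, Fintype.card_fin]
        push_cast
        rw [sub_self, abs_zero]
        exact hw
      · rw [ROO.cs_chi Y hYc]
        simpa using hw
    have h1 := hREC (Fin (2 * n)) (chi Y) (ROO.chi_pm Y) lam β r hP u₀ hu h univ hR
    rw [Nat.card_eq_fintype_card, Fintype.card_subtype, Nat.card_eq_fintype_card] at h1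
    have h2 : (1 : ℝ) / (4 * (β : ℝ) ^ 2) ≤ 1 / 4 := by
      have : (1 : ℝ) ≤ (β : ℝ) ^ 2 := by
        have : (1 : ℝ) ≤ β := by exact_mod_cast hβ
        nlinarith
      apply one_div_le_one_div_of_le (by norm_num)
      linarith
    refine le_trans (le_trans (le_of_eq ?_) h1) (mul_le_mul_of_nonneg_right h2 hposR.le)
    congr 2
  have hcard : (Fintype.card T : ℝ) ^ (2 * n) ≤
      ∑ Y ∈ Finset.powersetCard n (univ : Finset (Fin (2 * n))), ((bad Y).card : ℝ) ^ (2 * n) := by
    have h1 := (Finset.card_le_card hcov).trans Finset.card_biUnion_le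
    rw [Finset.card_univ, Fintype.card_fun, Fintype.card_fin] at h1
    have h2 : ∑ Y ∈ Finset.powersetCard n (univ : Finset (Fin (2 * n))),
        (Fintype.piFinset (fun _ : Fin (2 * n) => bad Y)).card =
        ∑ Y ∈ Finset.powersetCard n (univ : Finset (Fin (2 * n))), (bad Y).card ^ (2 * n) := by
      refine Finset.sum_congr rfl fun Y _ => ?_
      rw [Fintype.card_piFinset, Finset.prod_const, Finset.card_univ, Fintype.card_fin]
    rw [h2] at h1
    exact_mod_cast h1
  have hsum : ∑ Y ∈ Finset.powersetCard n (univ : Finset (Fin (2 * n))), ((bad Y).card : ℝ) ^ (2 * n) ≤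
      (2 : ℝ) ^ (2 * n) * (1 / 4 * Fintype.card T) ^ (2 * n) := by
    calc _ ≤ ∑ _Y ∈ Finset.powersetCard n (univ : Finset (Fin (2 * n))),
          ((1 : ℝ) / 4 * Fintype.card T) ^ (2 * n) :=
          Finset.sum_le_sum fun Y hY => pow_le_pow_left₀ (Nat.cast_nonneg _) (hbadle Y hY) _
      _ = ((Finset.powersetCard n (univ : Finset (Fin (2 * n)))).card : ℝ) *
          ((1 : ℝ) / 4 * Fintype.card T) ^ (2 * n) := by
          rw [Finset.sum_const, nsmul_eq_mul]
      _ ≤ _ := by
          apply mul_le_mul_of_nonneg_right _ (by positivity)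
          have h3 : (Finset.powersetCard n (univ : Finset (Fin (2 * n)))).card ≤ 2 ^ (2 * n) := by
            rw [Finset.card_powersetCard, Finset.card_univ, Fintype.card_fin]
            exact Nat.choose_le_two_pow _ _
          exact_mod_cast h3
  have hfin : (2 : ℝ) ^ (2 * n) * (1 / 4 * Fintype.card T) ^ (2 * n) <
      (Fintype.card T : ℝ) ^ (2 * n) := by
    rw [← mul_pow]
    apply pow_lt_pow_left₀ _ (by positivity) (by omega)
    linarith
  exact absurd (hcard.trans hsum) (not_le.2 hfin)

end Pool.Agent.H5.FR
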